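import Pool.Agent.Y110.FJ.Stm

/-!
# Kernels on which the group acts locally by automorphisms of finite order modulo inner ones

Jobs FJ-INN and FJ-NOM of helper110, done by helper467.
-/

set_option autoImplicit false

namespace Pool.Agent.Y467.FJ

open Pool.Agent.Y110.FJ
open Pool.Agent.Y462.SS (Closed)
open SemidirectProduct

/-- the mapping torus of an automorphism a power of which is inner -/
theorem torus_mem {C : ∀ (G : Type) [Group G], Prop} (hC : ClosedE C) {N : Type} [Group N] (hN : C N)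
    (σ : MulAut N) (k : ℕ) (hk : 0 < k) (n : N) (hσ : σ ^ k = MulAut.conj n) :
    C (N ⋊[zpowersHom (MulAut N) σ] Multiplicative ℤ) := by
  classical
  have : NeZero k := ⟨hk.ne'⟩
  set z : N ⋊[zpowersHom (MulAut N) σ] Multiplicative ℤ :=
    inl n⁻¹ * inr (Multiplicative.ofAdd (k : ℤ)) with hz
  have hzr : ∀ j : ℤ, (z ^ j).right = Multiplicative.ofAdd (k * j : ℤ) := by
    intro j
    have h1 : (z ^ j).right = (rightHom z) ^ j := by
      rw [← map_zpow]; rfl
    rw [h1]
    have h2 : rightHom z = Multiplicative.ofAdd (k : ℤ) := by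
      rw [hz, map_mul]; simp
    rw [h2, ← ofAdd_zsmul]
    congr 1
    rw [smul_eq_mul, mul_comm]
  have hcomm : ∀ x : N, Commute (inl x) z := by
    intro x
    have h1 : inr (Multiplicative.ofAdd (k : ℤ)) * (inl x : N ⋊[zpowersHom (MulAut N) σ] Multiplicative ℤ)
        = inl (n * x * n⁻¹) * inr (Multiplicative.ofAdd (k : ℤ)) := by
      have h2 := inl_aut (φ := zpowersHom (MulAut N) σ) (Multiplicative.ofAdd (k : ℤ)) x
      have h3 : (zpowersHom (MulAut N) σ) (Multiplicative.ofAdd (k : ℤ)) x = n * x * n⁻¹ := by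
        rw [zpowersHom_apply, toAdd_ofAdd, zpow_natCast, hσ, MulAut.conj_apply]
      rw [h3] at h2
      rw [h2, map_inv]
      group
    show inl x * z = z * inl x
    rw [hz, mul_assoc, h1, ← mul_assoc, ← mul_assoc, ← map_mul, ← map_mul]
    congr 2
    group
  let Θ : N × Multiplicative ℤ →* (N ⋊[zpowersHom (MulAut N) σ] Multiplicative ℤ) :=
    MonoidHom.noncommCoprod inl (zpowersHom _ z) (by
      intro x j
      rw [zpowersHom_apply]
      exact (hcomm x).zpow_right _)
  have hΘ : ∀ x j, Θ (x, j) = inl x * z ^ (Multiplicative.toAdd j) := by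
    intro x j
    rw [MonoidHom.noncommCoprod_apply, zpowersHom_apply]
  have hinj : Function.Injective Θ := by
    rw [injective_iff_map_eq_one]
    rintro ⟨x, j⟩ h
    rw [hΘ] at h
    have h1 := congrArg (fun g => g.right) h
    simp only [mul_right, right_inl, one_mul, one_right, hzr] at h1
    have h2 : (k : ℤ) * Multiplicative.toAdd j = 0 := Multiplicative.ofAdd.injective h1
    have h3 : Multiplicative.toAdd j = 0 := by
      rcases mul_eq_zero.mp h2 with h4 | h4
      · exfalso; exact hk.ne' (by exact_mod_cast h4)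
      · exact h4
    have h5 : j = 1 := Multiplicative.toAdd.injective h3
    subst h5
    rw [toAdd_one, zpow_zero, mul_one] at h
    have h6 : x = 1 := inl_injective (by rw [h, map_one])
    rw [h6]; rfl
  have hCK : C ↥Θ.range :=
    hC.base.of_injective _ _ (MonoidHom.ofInjective hinj).symm.toMonoidHom
      (MonoidHom.ofInjective hinj).symm.injective (hC.base.prod _ _ hN hC.base.int)
  let κ : (N ⋊[zpowersHom (MulAut N) σ] Multiplicative ℤ) →* Multiplicative (ZMod k) :=
    (AddMonoidHom.toMultiplicative (Int.castAddHom (ZMod k))).comp rightHom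
  have hle : κ.ker ≤ Θ.range := by
    intro g hg
    have h1 : ((Multiplicative.toAdd g.right : ℤ) : ZMod k) = 0 := by
      have : κ g = 1 := hg
      exact Multiplicative.ofAdd.injective this
    rw [ZMod.intCast_zmod_eq_zero_iff_dvd] at h1
    obtain ⟨j, hj⟩ := h1
    refine ⟨((g * z ^ (-j)).left, Multiplicative.ofAdd j), ?_⟩
    rw [hΘ, toAdd_ofAdd]
    have h2 : (g * z ^ (-j)).right = 1 := by
      rw [mul_right, hzr]
      apply Multiplicative.toAdd.injective
      rw [toAdd_mul, toAdd_ofAdd, hj, toAdd_one]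
      ring
    have h3 : (inl (g * z ^ (-j)).left : N ⋊[zpowersHom (MulAut N) σ] Multiplicative ℤ) =
        g * z ^ (-j) := by
      ext
      · simp
      · rw [h2]; rfl
    rw [h3, zpow_neg, inv_mul_cancel_right]
  have : κ.ker.FiniteIndex := Subgroup.finiteIndex_ker κ
  exact hC.base.finiteIndex _ Θ.range (Subgroup.finiteIndex_of_le hle) hCK

/-- **FJ-INN** -/
theorem t_inn (h : S_CRIT) : S_INN := by
  intro C hC G _ N _ hN hQ hloc
  refine h C hC G N hQ ?_
  intro g E hE hEN
  obtain ⟨σ, k, n, hk, hσ, hx⟩ := hloc g (Subtype.val ⁻¹' E) (hE.preimage Subtype.val_injective.injOn)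
  have hle : Subgroup.closure (E ∪ (fun x => g * x * g⁻¹) '' E) ≤ N := by
    rw [Subgroup.closure_le]
    rintro x (hx | ⟨y, hy, rfl⟩)
    · exact hEN hx
    · exact (inferInstance : N.Normal).conj_mem y (hEN hy) g
  refine ⟨N ⋊[zpowersHom (MulAut N) σ] Multiplicative ℤ, inferInstance,
    (inl).comp (Subgroup.inclusion hle), inr (Multiplicative.ofAdd 1),
    torus_mem hC hN σ k hk n hσ, ?_, ?_⟩
  · exact inl_injective.comp (Subgroup.inclusion_injective hle)
  · intro x y hxE hy
    rw [MonoidHom.comp_apply, MonoidHom.comp_apply, ← map_inv, ← inl_aut]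
    congr 1
    apply Subtype.ext
    rw [zpowersHom_apply, toAdd_ofAdd, zpow_one]
    rw [hx (Subgroup.inclusion hle x) hxE]
    exact hy

/-- a permutation of finite order which agrees with a given permutation on a finite set -/
theorem exists_perm {Ω : Type} (τ : Equiv.Perm Ω) (S : Set Ω) (hS : S.Finite) :
    ∃ (π : Equiv.Perm Ω) (k : ℕ), 0 < k ∧ π ^ k = 1 ∧ ∀ s ∈ S, π s = τ s := by
  classical
  let T : Set Ω := S ∪ τ '' S
  have hT : T.Finite := hS.union (hS.image τ)
  have : Finite T := hT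
  have : Fintype T := Fintype.ofFinite T
  let e : {x : T // x.1 ∈ S} ≃ {x : T // x.1 ∈ τ '' S} :=
    { toFun := fun x => ⟨⟨τ x.1.1, Or.inr ⟨_, x.2, rfl⟩⟩, ⟨_, x.2, rfl⟩⟩
      invFun := fun y => ⟨⟨τ.symm y.1.1, Or.inl (by
        obtain ⟨s, hs, h⟩ := y.2
        rw [← h, Equiv.symm_apply_apply]; exact hs)⟩, by
        obtain ⟨s, hs, h⟩ := y.2
        show τ.symm y.1.1 ∈ S
        rw [← h, Equiv.symm_apply_apply]; exact hs⟩
      left_inv := fun x => by
        apply Subtype.ext; apply Subtype.ext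
        exact τ.symm_apply_apply _
      right_inv := fun y => by
        apply Subtype.ext; apply Subtype.ext
        exact τ.apply_symm_apply _ }
  let π₀ : Equiv.Perm T := e.extendSubtype
  refine ⟨Equiv.Perm.ofSubtype π₀, orderOf π₀, orderOf_pos _, ?_, ?_⟩
  · rw [← map_pow, pow_orderOf_eq_one, map_one]
  · intro s hs
    have hsT : s ∈ T := Or.inl hs
    have h1 : Equiv.Perm.ofSubtype π₀ s = (π₀ ⟨s, hsT⟩ : Ω) :=
      Equiv.Perm.ofSubtype_apply_of_mem π₀ hsT
    rw [h1]
    have h2 : π₀ ⟨s, hsT⟩ = (e ⟨⟨s, hsT⟩, hs⟩).1 :=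
      Equiv.extendSubtype_apply_of_mem e ⟨s, hsT⟩ hs
    rw [h2]
    rfl

theorem conj_pow {N : Type} [Group N] (β : MulAut N) (u : N) (j : ℕ) :
    ∃ n : N, (MulAut.conj u * β) ^ j = MulAut.conj n * β ^ j := by
  have key : ∀ (γ : MulAut N) (v : N), γ * MulAut.conj v = MulAut.conj (γ v) * γ := by
    intro γ v
    ext x
    simp
  induction j with
  | zero => exact ⟨1, by simp⟩
  | succ j ih =>
    obtain ⟨n, hn⟩ := ih
    refine ⟨n * (β ^ j) u, ?_⟩
    rw [pow_succ, hn, map_mul, pow_succ, mul_assoc, ← mul_assoc (β ^ j), key]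
    simp only [mul_assoc]

/-- **FJ-NOM** -/
theorem t_nom (h : S_INN) : S_NOM := by
  intro C hC Ω N Q _ _ α ρ hfin hN hQ
  have hker : ∀ g : N ⋊[α.comp ρ] Q, g ∈ (rightHom : (N ⋊[α.comp ρ] Q) →* Q).ker ↔ g.right = 1 :=
    fun g => Iff.rfl
  let e : N ≃* ↥(rightHom : (N ⋊[α.comp ρ] Q) →* Q).ker :=
    { toFun := fun n => ⟨inl n, by rw [hker]; rfl⟩
      invFun := fun m => m.1.left
      left_inv := fun n => rfl
      right_inv := fun m => by
        apply Subtype.ext
        ext
        · rfl
        · exact ((hker _).mp m.2).symm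
      map_mul' := fun a b => by
        apply Subtype.ext
        exact map_mul inl a b }
  have heval : ∀ m, e.symm m = m.1.left := fun m => rfl
  have hee : ∀ n, ((e n : ↥(rightHom : (N ⋊[α.comp ρ] Q) →* Q).ker) : N ⋊[α.comp ρ] Q) = inl n :=
    fun n => rfl
  refine h C hC _ (rightHom : (N ⋊[α.comp ρ] Q) →* Q).ker
    (hC.base.of_injective _ _ e.symm.toMonoidHom e.symm.injective hN)
    (hC.base.of_injective _ _ (QuotientGroup.kerLift _) (QuotientGroup.kerLift_injective _) hQ) ?_
  intro g E hE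
  choose S hS hSf using hfin
  obtain ⟨π, k, hk, hπ, hagree⟩ := exists_perm (ρ g.right) (⋃ x ∈ E, S (e.symm x))
    (hE.biUnion (fun x _ => hS _))
  obtain ⟨n, hn⟩ := conj_pow (α π) g.left k
  rw [← map_pow, hπ, map_one, mul_one] at hn
  refine ⟨MulAut.congr e (MulAut.conj g.left * α π), k, e n, hk, ?_, ?_⟩
  · rw [← map_pow, hn]
    apply MulEquiv.ext
    intro x
    show e ((MulAut.conj n) (e.symm x)) = MulAut.conj (e n) x
    rw [MulAut.conj_apply, MulAut.conj_apply, map_mul, map_mul, map_inv, MulEquiv.apply_symm_apply]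
  · intro x hx
    have h1 : α π (e.symm x) = α (ρ g.right) (e.symm x) := by
      have h2 : α ((ρ g.right)⁻¹ * π) (e.symm x) = e.symm x := by
        apply hSf
        intro s hs
        rw [Equiv.Perm.mul_apply, hagree s (Set.mem_biUnion hx hs), ← Equiv.Perm.mul_apply,
          inv_mul_cancel, Equiv.Perm.one_apply]
      have h3 : π = ρ g.right * ((ρ g.right)⁻¹ * π) := by group
      conv_lhs => rw [h3]
      rw [map_mul, MulAut.mul_apply, h2]
    have h4 : (MulAut.congr e (MulAut.conj g.left * α π)) x =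
        e (g.left * α (ρ g.right) (e.symm x) * (g.left)⁻¹) := by
      show e ((MulAut.conj g.left * α π) (e.symm x)) = _
      rw [MulAut.mul_apply, h1, MulAut.conj_apply]
    rw [h4, hee, map_mul, map_mul]
    have h5 : (x : N ⋊[α.comp ρ] Q) = inl (e.symm x) := by
      rw [← hee, MulEquiv.apply_symm_apply]
    have h6 := inl_aut (φ := α.comp ρ) g.right (e.symm x)
    rw [MonoidHom.comp_apply] at h6
    rw [h6, h5]
    have h7 : g = inl g.left * inr g.right := (inl_left_mul_inr_right g).symm
    conv_rhs => rw [h7]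
    rw [mul_inv_rev, map_inv, map_inv]
    simp only [mul_assoc]

end Pool.Agent.Y467.FJ
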