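import Pool.Agent.Y110.FJ.Stm2

/-!
# Local quotients of free products

Jobs FJ-AMR and FJ-LOC of helper110, done by helper467.
-/

set_option autoImplicit false

namespace Pool.Agent.Y467.FJ

open Pool.Agent.Y110.FJ
open Pool.Agent.Y110.KW

theorem ret_fix {V : Type} {P : V → Type} [∀ v, Group (P v)] {R : Set (Monoid.CoprodI P)}
    (hR : IsLocal R) (S : Set V) (g : Quo R) (hg : g ∈ (ret hR S).range) : ret hR S g = g := by
  obtain ⟨w, rfl⟩ := hg
  rw [ret_ret, Set.inter_self]

theorem ret_range_mono {V : Type} {P : V → Type} [∀ v, Group (P v)] {R : Set (Monoid.CoprodI P)}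
    (hR : IsLocal R) {S T : Set V} (h : S ⊆ T) : (ret hR S).range ≤ (ret hR T).range := by
  rintro _ ⟨g, rfl⟩
  refine ⟨ret hR S g, ?_⟩
  rw [ret_ret, Set.inter_eq_right.mpr h]

/-- **FJ-AMR** -/
theorem t_amr : S_AMR := by
  intro V P _ R hR S u v hu hv huv hl
  have hA := amal hR huv hl
  have hcompl : ({u}ᶜ ∩ {v}ᶜ : Set V) = {u, v}ᶜ := by
    ext x; simp
  have hSu : S \ {u} = {u}ᶜ ∩ S := by
    ext x; simp [and_comm]
  have hSv : S \ {v} = {v}ᶜ ∩ S := by
    ext x; simp [and_comm]
  have hSuv : S \ {u, v} = ({u}ᶜ ∩ {v}ᶜ) ∩ S := by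
    ext x; simp [and_comm]
  refine ⟨?_, ?_, ?_, ?_⟩
  · intro x hx
    rw [Subgroup.mem_subgroupOf] at hx ⊢
    exact ret_range_mono hR (Set.sdiff_subset_sdiff_right (by simp)) hx
  · intro x hx
    rw [Subgroup.mem_subgroupOf] at hx ⊢
    exact ret_range_mono hR (Set.sdiff_subset_sdiff_right (by simp)) hx
  · rw [eq_top_iff]
    have h1 : ((⊤ : Subgroup (Quo R)).map (ret hR S).rangeRestrict) = ⊤ := by
      rw [← MonoidHom.range_eq_map, MonoidHom.range_eq_top]
      exact (ret hR S).rangeRestrict_surjective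
    rw [← h1, ← hA.gen, Subgroup.map_sup]
    apply sup_le_sup
    · rintro _ ⟨x, hx, rfl⟩
      rw [Subgroup.mem_subgroupOf]
      refine ⟨x, ?_⟩
      have := ret_fix hR _ x hx
      conv_rhs => rw [← this]
      show _ = ret hR S (ret hR {u}ᶜ x)
      rw [ret_ret, hSu, Set.inter_comm]
    · rintro _ ⟨x, hx, rfl⟩
      rw [Subgroup.mem_subgroupOf]
      refine ⟨x, ?_⟩
      have := ret_fix hR _ x hx
      conv_rhs => rw [← this]
      show _ = ret hR S (ret hR {v}ᶜ x)
      rw [ret_ret, hSv, Set.inter_comm]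
  · intro H _ f g hfg
    -- the retraction onto `S` maps the big subgroups to the small ones
    have hmA : ∀ x : (ret hR {u}ᶜ).range, (ret hR S).rangeRestrict (x : Quo R) ∈
        (ret hR (S \ {u})).range.subgroupOf (ret hR S).range := by
      intro x
      rw [Subgroup.mem_subgroupOf]
      refine ⟨x, ?_⟩
      have := ret_fix hR _ x x.2
      show _ = ret hR S x
      conv_rhs => rw [← this]
      rw [ret_ret, hSu, Set.inter_comm]
    have hmB : ∀ x : (ret hR {v}ᶜ).range, (ret hR S).rangeRestrict (x : Quo R) ∈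
        (ret hR (S \ {v})).range.subgroupOf (ret hR S).range := by
      intro x
      rw [Subgroup.mem_subgroupOf]
      refine ⟨x, ?_⟩
      have := ret_fix hR _ x x.2
      show _ = ret hR S x
      conv_rhs => rw [← this]
      rw [ret_ret, hSv, Set.inter_comm]
    let f' : (ret hR {u}ᶜ).range →* H := f.comp
      (((ret hR S).rangeRestrict.comp (ret hR {u}ᶜ).range.subtype).codRestrict _ hmA)
    let g' : (ret hR {v}ᶜ).range →* H := g.comp
      (((ret hR S).rangeRestrict.comp (ret hR {v}ᶜ).range.subtype).codRestrict _ hmB)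
    obtain ⟨h, hf, hg⟩ := hA.univ H f' g' (by
      intro c hc
      have hcK : (ret hR S).rangeRestrict c ∈ (ret hR (S \ {u, v})).range.subgroupOf (ret hR S).range := by
        rw [Subgroup.mem_subgroupOf]
        refine ⟨c, ?_⟩
        have := ret_fix hR _ c hc
        show _ = ret hR S c
        conv_rhs => rw [← this]
        rw [ret_ret, hSuv, Set.inter_comm]
      exact hfg _ hcK)
    refine ⟨h.comp (ret hR S).range.subtype, ?_, ?_⟩
    · intro a
      have ha : ((a : (ret hR S).range) : Quo R) ∈ (ret hR {u}ᶜ).range :=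
        ret_range_mono hR (by rw [hSu]; exact Set.inter_subset_left)
          (Subgroup.mem_subgroupOf.mp a.2)
      have h1 := hf ⟨_, ha⟩
      show h ((a : (ret hR S).range) : Quo R) = f a
      rw [h1]
      show f _ = f a
      congr 1
      apply Subtype.ext
      apply Subtype.ext
      exact ret_fix hR S _ (a : (ret hR S).range).2
    · intro a
      have ha : ((a : (ret hR S).range) : Quo R) ∈ (ret hR {v}ᶜ).range :=
        ret_range_mono hR (by rw [hSv]; exact Set.inter_subset_left)
          (Subgroup.mem_subgroupOf.mp a.2)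
      have h1 := hg ⟨_, ha⟩
      show h ((a : (ret hR S).range) : Quo R) = g a
      rw [h1]
      show g _ = g a
      congr 1
      apply Subtype.ext
      apply Subtype.ext
      exact ret_fix hR S _ (a : (ret hR S).range).2

/-- the finite stages -/
theorem fin_mem (h : S_AM) {C : ∀ (G : Type) [Group G], Prop} (hC : ClosedE C)
    {V : Type} {P : V → Type} [∀ v, Group (P v)] {R : Set (Monoid.CoprodI P)} (hR : IsLocal R)
    (hcl : ∀ σ : Finset V, IsCl R σ → C ↥(para R (σ : Set V))) :
    ∀ (n : ℕ) (S : Finset V), S.card = n → C ↥(ret hR (S : Set V)).range := by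
  classical
  intro n
  induction n using Nat.strong_induction_on with
  | _ n ih =>
    intro S hS
    by_cases hcS : IsCl R S
    · rw [ret_range]
      exact hcl S hcS
    · unfold IsCl at hcS
      push Not at hcS
      obtain ⟨u, hu, v, hv, huv, hl⟩ := hcS
      have hAm := t_amr V P R hR (S : Set V) u v hu hv huv hl
      have hCu : C ↥(ret hR ((S.erase u : Finset V) : Set V)).range :=
        ih _ (by rw [← hS]; exact Finset.card_erase_lt_of_mem hu) _ rfl
      have hCv : C ↥(ret hR ((S.erase v : Finset V) : Set V)).range :=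
        ih _ (by rw [← hS]; exact Finset.card_erase_lt_of_mem hv) _ rfl
      let f : ↥(ret hR (S : Set V)).range →*
          ↥(ret hR ((S.erase u : Finset V) : Set V)).range ×
          ↥(ret hR ((S.erase v : Finset V) : Set V)).range :=
        ((ret hR ((S.erase u : Finset V) : Set V)).rangeRestrict.prod
          (ret hR ((S.erase v : Finset V) : Set V)).rangeRestrict).comp
            (ret hR (S : Set V)).range.subtype
      refine h C hC _ _ _ _ _ hAm f ?_ ?_ (hC.base.prod _ _ hCu hCv)
      · intro a ha hfa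
        have h1 : ret hR ((S.erase u : Finset V) : Set V) (a : Quo R) = 1 :=
          congrArg Subtype.val (congrArg Prod.fst hfa)
        rw [Subgroup.mem_subgroupOf, ← Finset.coe_erase] at ha
        rw [ret_fix hR _ _ ha] at h1
        exact Subtype.ext h1
      · intro a ha hfa
        have h1 : ret hR ((S.erase v : Finset V) : Set V) (a : Quo R) = 1 :=
          congrArg Subtype.val (congrArg Prod.snd hfa)
        rw [Subgroup.mem_subgroupOf, ← Finset.coe_erase] at ha
        rw [ret_fix hR _ _ ha] at h1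
        exact Subtype.ext h1

/-- **FJ-LOC** -/
theorem t_loc (h : S_AM) : S_LOC := by
  classical
  intro C hC V P _ R hR hcl
  refine hC.base.colim (Finset V) (fun i j => ⟨i ∪ j, Finset.subset_union_left, Finset.subset_union_right⟩)
    (fun S => ↥(ret hR (S : Set V)).range)
    (fun i j hij => Subgroup.inclusion (ret_range_mono hR (Finset.coe_subset.mpr hij)))
    (Quo R) (fun S => (ret hR (S : Set V)).range.subtype) ?_ ?_ ?_ ?_ ?_ ?_
  · intro i hi x; rfl
  · intro i j k hij hjk x; rfl
  · intro i j hij x; rfl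
  · intro y
    obtain ⟨S, hS⟩ := ret_finite hR y
    exact ⟨S, ⟨y, ⟨y, hS⟩⟩, rfl⟩
  · intro i x hx
    refine ⟨i, le_rfl, ?_⟩
    apply Subtype.ext
    exact hx
  · intro S
    exact fin_mem h hC hR hcl _ S rfl

/-- **FJ-LOC** -/
theorem t_loc' (h : S_AM) (_ : S_AMR) : S_LOC := t_loc h

end Pool.Agent.Y467.FJ
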